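import Pool.Agent.Y6.H.Blow

/-! Blow-up for the system of the modes (assembly, second part). -/

open Set Filter Topology
open scoped ComplexConjugate

set_option autoImplicit false

namespace Pool.Agent.Y6.H

open Pool.Agent.Y6.M (qd mq Kz Ker Adm Dat TSol Wt KSol cX cY Uth εc x0 Mains MDat Z3 C3 Coef dt cr
  cj kc nsq len adv leray Kop IsField IsSol energy enstr Md hs br Frame cK sgz pf Kz_main one_of)
open Pool.Agent.Y6.F (DSol Mx κr Prt rk code cd ln NM al al_pos kx kx_ne ky_ne Xm Ym ML lvM σM αM GM ρM bM dM vM Cnd ChnF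
  Adq idx env eF rF mx D0 Ty tm xs ys Ms S_LV S_CODE S_SUMS S_VEC S_KERM S_DATM S_LAT S_ENV S_RATE S_ST
  S_IBP S_LIMR S_UC S_MS S_CHAIN S_PERSR S_LOCR)

section

variable {S : ℕ → ℝ} {h : Md → C3}

/-- good times -/
def Good (U : Ultrafilter ℕ) (Z : ℕ → Md → ℝ → ℂ) (Tm : ℕ → ℝ) (θ : ℝ) : Prop :=
  0 ≤ θ ∧ ∃ M, ∀ᶠ N in (U : Filter ℕ), θ ≤ Tm N ∧ ∀ n, αM n * Ms (Z N) θ n ≤ M

/-- the data of the construction -/
structure Con (S : ℕ → ℝ) (h : Md → C3) (Z : ℕ → Md → ℝ → ℂ) (Tm : ℕ → ℝ) (U : Ultrafilter ℕ)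
    (z : Md → ℝ → ℂ) : Prop where
  ctx : Ctx S h
  sol : ∀ N, TSol S lvM br σM (cK h) vM N (Z N)
  tpos : ∀ N, 1 ≤ N → 0 < Tm N
  tle : ∀ N, 1 ≤ N → Tm N ≤ 1
  tcnd : ∀ N, 1 ≤ N → Cnd αM (xs (Z N)) (ys (Z N)) (Tm N)
  tbig : ∀ N, 1 ≤ N → √(αM N) ≤ αM N * Ms (Z N) (Tm N) N
  le : (U : Filter ℕ) ≤ atTop
  lim : ∀ i, ∀ t ∈ Icc (0 : ℝ) 60, Tendsto (fun N => Z N i t) U (𝓝 (z i t))
  real : ∀ i, ∀ t ∈ Icc (0 : ℝ) 60, z (br i) t = conj (z i t)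
  init : ∀ i, z i 0 = vM i
  energy : ∀ t ∈ Icc (0 : ℝ) 60, Summable (fun a => ‖z a t‖ ^ 2) ∧ ∑' a, ‖z a t‖ ^ 2 ≤ 1
  lip : ∀ i, ∃ C, ∀ᶠ N in (U : Filter ℕ), ∀ s ∈ Icc (0 : ℝ) 60, ∀ t ∈ Icc (0 : ℝ) 60,
      ‖Z N i s - Z N i t‖ ≤ C * |s - t|
  ode : ∀ θ ∈ Icc (0 : ℝ) 60, ∀ β : Md → ℝ, Summable (fun j => if σM j = 0 then 0 else β j) →
      (∀ᶠ N in (U : Filter ℕ), ∀ j, σM j ≠ 0 → ∀ t ∈ Icc 0 θ, ‖Z N j t‖ ≤ β j) →
      ∀ i, ∀ t ∈ Icc 0 θ, HasDerivWithinAt (z i)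
        (Kz S lvM σM (fun a => z a t) i + qd (cK h) (fun a => z a t) i) (Icc 0 θ) t

variable {Z : ℕ → Md → ℝ → ℂ} {Tm : ℕ → ℝ} {U : Ultrafilter ℕ} {z : Md → ℝ → ℂ}

lemma Con.ev1 (o : Con S h Z Tm U z) : ∀ᶠ N in (U : Filter ℕ), 1 ≤ N :=
  o.le (eventually_ge_atTop 1)

lemma Good.le1 (o : Con S h Z Tm U z) {θ : ℝ} (g : Good U Z Tm θ) : θ ≤ 1 := by
  obtain ⟨-, M, hM⟩ := g
  obtain ⟨N, h1, h2⟩ := (hM.and o.ev1).exists
  exact h1.1.trans (o.tle N h2)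

/-- restriction of `Cnd` -/
lemma cndm {x y : ℕ → ℝ → ℂ} {θ θ' : ℝ} (hC : Cnd αM x y θ) (hθ : θ' ≤ θ) :
    Cnd αM x y θ' := fun n t ht => hC n t ⟨ht.1, ht.2.trans hθ⟩

lemma Good.mono (o : Con S h Z Tm U z) {θ θ' : ℝ} (g : Good U Z Tm θ) (h0 : 0 ≤ θ') (h1 : θ' ≤ θ) :
    Good U Z Tm θ' := by
  obtain ⟨a, M, hM⟩ := g
  refine ⟨h0, M, ?_⟩
  filter_upwards [hM, o.ev1] with N hN hN1
  refine ⟨h1.trans hN.1, fun n => ?_⟩
  obtain ⟨-, m2, -⟩ := tms o.ctx (o.sol N) (θ := θ) ⟨a, hN.1.trans (o.tle N hN1)⟩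
    (cndm (o.tcnd N hN1) hN.1)
  exact (mul_le_mul_of_nonneg_left (m2 θ' ⟨h0, h1⟩ θ ⟨a, le_rfl⟩ h1 n) (apos n).le).trans (hN.2 n)

lemma good_zero (o : Con S h Z Tm U z) : Good U Z Tm 0 := by
  obtain ⟨M, hM⟩ := ε_bd 1
  refine ⟨le_rfl, max (αM 0) M, ?_⟩
  filter_upwards [o.ev1] with N hN
  refine ⟨(o.tpos N hN).le, fun n => ?_⟩
  rcases n with _ | n
  · show αM 0 * 1 ≤ _
    rw [mul_one]
    exact le_max_left _ _
  · refine le_trans ?_ (le_max_right _ _)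
    have h1 : Ms (Z N) 0 (n + 1) ≤ εc αM (n + 1) := by
      show max (εc αM (n + 1))
        (sSup ((fun s => max ‖xs (Z N) (n + 1) s‖ ‖ys (Z N) n s‖) '' Icc 0 0)) ≤ _
      rw [Icc_self, image_singleton, csSup_singleton]
      refine max_le le_rfl (max_le ?_ ?_)
      · rcases le_or_gt (n + 1) N with h2 | h2
        · rw [(tinit o.ctx (o.sol N)).1 _ h2, Complex.norm_real, Real.norm_eq_abs,
            abs_of_pos (x0_pos _)]
          exact le_rfl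
        · rw [(tzero o.ctx (o.sol N)).1 _ h2, norm_zero]
          exact (ε_pos _).le
      · rw [(tinit o.ctx (o.sol N)).2, norm_zero]
        exact (ε_pos _).le
    have h2 := hM (n + 1)
    rw [pow_one] at h2
    exact (mul_le_mul_of_nonneg_left h1 (apos _).le).trans h2

/-- uniform convergence -/
lemma Con.unif (o : Con S h Z Tm U z) {θ : ℝ} (h0 : 0 ≤ θ) (h1 : θ ≤ 60) (i : Md) (ε : ℝ)
    (hε : 0 < ε) : ∀ᶠ N in (U : Filter ℕ), ∀ t ∈ Icc 0 θ, ‖Z N i t - z i t‖ ≤ ε := by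
  obtain ⟨C, hC⟩ := o.lip i
  exact o.ctx.uc (fun N => Z N i) (z i) U θ C h0
    (hC.mono fun N hN s hs t ht => hN s (sub60 h1 hs) t (sub60 h1 ht))
    (fun t ht => o.lim i t (sub60 h1 ht)) ε hε

lemma Con.one (o : Con S h Z Tm U z) (i : Md) (t : ℝ) (ht : t ∈ Icc (0 : ℝ) 60) : ‖z i t‖ ≤ 1 :=
  one_of (z := fun a => z a t) (o.energy t ht).1 (o.energy t ht).2 i

lemma Con.cont (o : Con S h Z Tm U z) (i : Md) : ContinuousOn (z i) (Icc 0 60) := by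
  obtain ⟨C, hC⟩ := o.lip i
  have h1 : ∀ s ∈ Icc (0 : ℝ) 60, ∀ t ∈ Icc (0 : ℝ) 60, ‖z i s - z i t‖ ≤ C * |s - t| := by
    intro s hs t ht
    have h2 := ((o.lim i s hs).sub (o.lim i t ht)).norm
    exact le_of_tendsto h2 (hC.mono fun N hN => hN s hs t ht)
  have h2 : LipschitzOnWith (Real.toNNReal C) (z i) (Icc 0 60) := by
    refine LipschitzOnWith.of_dist_le_mul fun s hs t ht => ?_
    rw [dist_eq_norm, Real.dist_eq]
    exact (h1 s hs t ht).trans (mul_le_mul_of_nonneg_right (Real.le_coe_toNNReal C)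
      (abs_nonneg _))
  exact h2.continuousOn

lemma Con.msT (o : Con S h Z Tm U z) {θ : ℝ} (h0 : 0 ≤ θ) (h1 : θ ≤ 60) (n : ℕ) {t : ℝ}
    (ht : t ∈ Icc 0 θ) : Tendsto (fun N => Ms (Z N) t n) U (𝓝 (Ms z t n)) :=
  ms_tendsto o.ctx h0 (fun i ε hε => o.unif h0 h1 i ε hε) (fun i t ht => o.one i t (sub60 h1 ht))
    (fun N i t ht => tone o.ctx (o.sol N) i t (sub60 h1 ht)) n ht

/-- the conditions for the limit -/
lemma Good.cnd (o : Con S h Z Tm U z) {θ : ℝ} (g : Good U Z Tm θ) : Cnd αM (xs z) (ys z) θ := by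
  have h1 : θ ≤ 60 := (g.le1 o).trans (by norm_num)
  obtain ⟨-, M, hM⟩ := g
  intro n t ht
  constructor
  · refine le_of_tendsto (o.lim (Xm (n + 1)) t (sub60 h1 ht)).norm ?_
    filter_upwards [hM, o.ev1] with N hN hN1
    exact ((o.tcnd N hN1) n t ⟨ht.1, ht.2.trans hN.1⟩).1
  · refine le_of_tendsto (o.lim (Ym n) t (sub60 h1 ht)).norm ?_
    filter_upwards [hM, o.ev1] with N hN hN1
    exact ((o.tcnd N hN1) n t ⟨ht.1, ht.2.trans hN.1⟩).2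

/-- the other modes of the truncated solutions -/
lemma Good.oth' (o : Con S h Z Tm U z) {θ : ℝ} (g : Good U Z Tm θ) :
    ∀ᶠ N in (U : Filter ℕ), ∀ i, σM i ≠ 0 → ∀ t ∈ Icc 0 θ,
      ‖Z N i t‖ ≤ (10 ^ 20)⁻¹ * (ln i ^ 7)⁻¹ * env (Ms (Z N) t) (ln i) := by
  obtain ⟨h0, M, hM⟩ := g
  filter_upwards [hM, o.ev1] with N hN hN1
  exact o.ctx.btc N (Z N) (o.sol N) θ ⟨h0, hN.1.trans (o.tle N hN1)⟩ (cndm (o.tcnd N hN1) hN.1)

lemma Good.oth (o : Con S h Z Tm U z) {θ : ℝ} (g : Good U Z Tm θ) (i : Md) (hi : σM i ≠ 0) (t : ℝ)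
    (ht : t ∈ Icc 0 θ) : ‖z i t‖ ≤ (10 ^ 20)⁻¹ * (ln i ^ 7)⁻¹ * env (Ms z t) (ln i) := by
  have h1 : θ ≤ 60 := (g.le1 o).trans (by norm_num)
  refine le_of_tendsto_of_tendsto (o.lim i t (sub60 h1 ht)).norm
    ((env_tendsto (fun n => o.msT g.1 h1 n ht) (ln i)).const_mul _) ?_
  filter_upwards [g.oth' o] with N hN
  exact hN i hi t ht

/-- the differential equations for the limit -/
lemma Good.ode (o : Con S h Z Tm U z) {θ : ℝ} (g : Good U Z Tm θ) (i : Md) (t : ℝ)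
    (ht : t ∈ Icc 0 θ) : HasDerivWithinAt (z i)
      (Kz S lvM σM (fun a => z a t) i + qd (cK h) (fun a => z a t) i) (Icc 0 θ) t := by
  have h1 : θ ≤ 60 := (g.le1 o).trans (by norm_num)
  obtain ⟨p, hp⟩ := o.ctx.wt.summ
  obtain ⟨h0, M, hM⟩ := g
  obtain ⟨C, hC⟩ := tpers o.ctx (2 * p) M
  obtain ⟨C', hC'⟩ := o.ctx.envl.2.2 (2 * p) C
  refine o.ode θ ⟨h0, h1⟩ (fun i => |C'| * (NM i ^ p)⁻¹) ?_ ?_ i t ht
  · refine Summable.of_norm_bounded (g := fun i => |C'| * (NM i ^ p)⁻¹) (hp.mul_left _) fun j => ?_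
    have hN : 0 ≤ NM j := le_trans zero_le_one (o.ctx.wt.one j)
    split_ifs
    · rw [norm_zero]; positivity
    · rw [Real.norm_eq_abs, abs_of_nonneg (by positivity)]
  · have g' : Good U Z Tm θ := ⟨h0, M, hM⟩
    filter_upwards [g'.oth' o, hM, o.ev1] with N hN hN2 hN1 j hj s hs
    have hθ1 : θ ∈ Icc (0 : ℝ) 1 := ⟨h0, hN2.1.trans (o.tle N hN1)⟩
    have hCn := cndm (o.tcnd N hN1) hN2.1
    obtain ⟨m1, m2, m3⟩ := tms o.ctx (o.sol N) hθ1 hCn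
    obtain ⟨l1, l2⟩ := o.ctx.code.2.2.2.2.1 j
    have h2 := hC' _ (m1 s hs) (fun n => hC N (Z N) (o.sol N) θ hθ1 hCn hN2.2 n s hs) (ln j) l1
    have h3 : NM j = ln j ^ 2 := l2.symm
    have h4 : 0 < ln j ^ (2 * p) := by positivity
    have h5 : env (Ms (Z N) s) (ln j) ≤ |C'| * (NM j ^ p)⁻¹ := by
      rw [h3, ← pow_mul, ← div_eq_mul_inv, le_div_iff₀ h4, mul_comm]
      exact h2.trans (le_abs_self _)
    have h6 : 0 < env (Ms (Z N) s) (ln j) := ((o.ctx.envl.1 _ (m1 s hs)).2.2.2.2 (ln j)).1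
    refine (hN j hj s hs).trans (le_trans ?_ h5)
    have h7 : (10 ^ 20 : ℝ)⁻¹ * (ln j ^ 7)⁻¹ ≤ 1 := by
      have h8 : (ln j ^ 7)⁻¹ ≤ 1 := inv_le_one_of_one_le₀ (one_le_pow₀ l1)
      have h9 : (0 : ℝ) ≤ (ln j ^ 7)⁻¹ := by positivity
      calc (10 ^ 20 : ℝ)⁻¹ * (ln j ^ 7)⁻¹ ≤ 1 * 1 :=
            mul_le_mul (by norm_num) h8 h9 (by norm_num)
        _ = 1 := one_mul 1
    exact mul_le_of_le_one_left h6.le h7

/-- regularity of the limit -/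
lemma Good.reg (o : Con S h Z Tm U z) {θ : ℝ} (g : Good U Z Tm θ) (k : ℕ) :
    ∃ M, ∀ t ∈ Icc 0 θ, ∀ i, NM i ^ k * ‖z i t‖ ≤ M := by
  have h1 : θ ≤ 60 := (g.le1 o).trans (by norm_num)
  obtain ⟨h0, M, hM⟩ := g
  have g' : Good U Z Tm θ := ⟨h0, M, hM⟩
  obtain ⟨C, hC⟩ := tpers o.ctx (2 * k) M
  obtain ⟨C', hC'⟩ := o.ctx.envl.2.2 (2 * k) C
  refine ⟨|C'|, fun t ht i => ?_⟩
  have h2 : Tendsto (fun N => NM i ^ k * ‖Z N i t‖) U (𝓝 (NM i ^ k * ‖z i t‖)) :=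
    (o.lim i t (sub60 h1 ht)).norm.const_mul _
  refine le_of_tendsto h2 ?_
  filter_upwards [g'.oth' o, hM, o.ev1] with N hN hN2 hN1
  have hθ1 : θ ∈ Icc (0 : ℝ) 1 := ⟨h0, hN2.1.trans (o.tle N hN1)⟩
  have hCn := cndm (o.tcnd N hN1) hN2.1
  obtain ⟨m1, m2, m3⟩ := tms o.ctx (o.sol N) hθ1 hCn
  obtain ⟨l1, l2⟩ := o.ctx.code.2.2.2.2.1 i
  have h3 := hC' _ (m1 t ht) (fun n => hC N (Z N) (o.sol N) θ hθ1 hCn hN2.2 n t ht) (ln i) l1
  have h4 : NM i = ln i ^ 2 := l2.symm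
  have hE := (o.ctx.envl.1 _ (m1 t ht))
  have h6 : 0 < env (Ms (Z N) t) (ln i) := (hE.2.2.2.2 (ln i)).1
  have h5 : ‖Z N i t‖ ≤ env (Ms (Z N) t) (ln i) := by
    by_cases hi : σM i = 0
    · have h7 := m3 i hi t ht t ht le_rfl
      have h8 := (o.ctx.lv.2.2.2.2.2.2.1 i hi)
      rw [h4] at h8
      have h9 : ln i ≤ 4 * αM (lvM i) := by
        refine le_of_sq_le_sq ?_ (by linarith [apos (lvM i)])
        nlinarith [h8.2, apos (lvM i)]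
      exact h7.trans (hE.2.2.2.1 _ _ (by linarith) h9)
    · refine (hN i hi t ht).trans (mul_le_of_le_one_left h6.le ?_)
      have h8 : (ln i ^ 7)⁻¹ ≤ 1 := inv_le_one_of_one_le₀ (one_le_pow₀ l1)
      have h9 : (0 : ℝ) ≤ (ln i ^ 7)⁻¹ := by positivity
      calc (10 ^ 20 : ℝ)⁻¹ * (ln i ^ 7)⁻¹ ≤ 1 * 1 :=
            mul_le_mul (by norm_num) h8 h9 (by norm_num)
        _ = 1 := one_mul 1
  rw [h4, ← pow_mul]
  calc ln i ^ (2 * k) * ‖Z N i t‖ ≤ ln i ^ (2 * k) * env (Ms (Z N) t) (ln i) :=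
        mul_le_mul_of_nonneg_left h5 (by positivity)
    _ ≤ |C'| := h3.trans (le_abs_self _)

/-- extension of the interval of good times -/
lemma Good.extend (o : Con S h Z Tm U z) {θ x δ M' : ℝ} (hx : 0 ≤ x) (hδ : 0 < δ)
    (hloc : ∀ (N : ℕ) (s e : ℝ) (x' y f g : ℕ → ℝ → ℂ), 0 ≤ s → s ≤ e → e ≤ 1 → e ≤ s + δ →
      DSol (GM h) bM dM N 0 e x' y f g → (∀ n, N < n → ∀ t ∈ Icc 0 e, x' n t = 0) →
      (∀ n, N ≤ n → ∀ t ∈ Icc 0 e, y n t = 0) → Cnd αM x' y e → Prt αM x' y f g e →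
      (∀ n, αM n * Mx αM x' y n s ≤ x + 1) → ∀ n, ∀ t ∈ Icc 0 e, αM n * Mx αM x' y n t ≤ M')
    (g : Good U Z Tm θ) (hθ : ∀ n, αM n * Ms z θ n ≤ x) : Good U Z Tm (θ + δ) := by
  have hθ1 := g.le1 o
  have h1 : θ ≤ 60 := hθ1.trans (by norm_num)
  obtain ⟨h0, M, hM⟩ := g
  obtain ⟨C, hC⟩ := tpers o.ctx 2 M
  have hθθ : θ ∈ Icc 0 θ := ⟨h0, le_rfl⟩
  obtain ⟨n₀, hn₀⟩ : ∃ n₀ : ℕ, C ≤ (2 : ℝ) ^ n₀ := by
    obtain ⟨n, hn⟩ := pow_unbounded_of_one_lt C (by norm_num : (1 : ℝ) < 2)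
    exact ⟨n, hn.le⟩
  have h2 : ∀ m, n₀ ≤ m → C ≤ αM m := fun m hm =>
    hn₀.trans ((pow_le_pow_right₀ (by norm_num) hm).trans (a_grow m))
  have h3 : ∀ᶠ N in (U : Filter ℕ), ∀ m ∈ Finset.range n₀, αM m * Ms (Z N) θ m ≤ x + 1 := by
    rw [Finset.eventually_all]
    intro m _
    have h4 : Tendsto (fun N => αM m * Ms (Z N) θ m) U (𝓝 (αM m * Ms z θ m)) :=
      (o.msT h0 h1 m hθθ).const_mul _
    have h5 : αM m * Ms z θ m < x + 1 := lt_of_le_of_lt (hθ m) (by linarith)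
    exact (h4.eventually (gt_mem_nhds h5)).mono fun n hn => hn.le
  have h4 : ∀ᶠ N in (U : Filter ℕ), M' < √(αM N) := by
    refine o.le ?_
    obtain ⟨n₁, hn₁⟩ : ∃ n₁ : ℕ, (|M'| + 1) ^ 2 ≤ (2 : ℝ) ^ n₁ := by
      obtain ⟨n, hn⟩ := pow_unbounded_of_one_lt ((|M'| + 1) ^ 2) (by norm_num : (1 : ℝ) < 2)
      exact ⟨n, hn.le⟩
    filter_upwards [eventually_ge_atTop n₁] with N hN
    have h5 : (|M'| + 1) ^ 2 ≤ αM N :=
      hn₁.trans ((pow_le_pow_right₀ (by norm_num) hN).trans (a_grow N))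
    have h6 : |M'| + 1 ≤ √(αM N) := Real.le_sqrt_of_sq_le h5
    linarith [le_abs_self M']
  have key : ∀ᶠ N in (U : Filter ℕ), θ + δ ≤ Tm N ∧ ∀ n, αM n * Ms (Z N) (θ + δ) n ≤ M' := by
    filter_upwards [hM, h3, h4, o.ev1] with N hN hN3 hN4 hN1
    have hT1 := o.tle N hN1
    have hTc := o.tcnd N hN1
    have hCθ := cndm hTc hN.1
    have hX : ∀ n, αM n * Ms (Z N) θ n ≤ x + 1 := by
      intro n
      rcases lt_or_ge n n₀ with hm | hm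
      · exact hN3 n (Finset.mem_range.2 hm)
      · have h5 := hC N (Z N) (o.sol N) θ ⟨h0, hθ1⟩ hCθ hN.2 n θ hθθ
        have h6 : αM n * (αM n * Ms (Z N) θ n) ≤ αM n * 1 := by
          calc αM n * (αM n * Ms (Z N) θ n) = αM n ^ 2 * Ms (Z N) θ n := by ring
            _ ≤ C := h5
            _ ≤ αM n * 1 := by rw [mul_one]; exact h2 n hm
        have h7 := le_of_mul_le_mul_left h6 (apos n)
        linarith
    have hl : ∀ e, θ ≤ e → e ≤ Tm N → e ≤ θ + δ → ∀ n, ∀ t ∈ Icc 0 e,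
        αM n * Ms (Z N) t n ≤ M' := by
      intro e he1 he2 he3
      have he : e ∈ Icc (0 : ℝ) 1 := ⟨h0.trans he1, he2.trans hT1⟩
      have hCe := cndm hTc he2
      exact hloc N θ e _ _ _ _ h0 he1 he.2 he3
        (tdsol o.ctx (o.sol N) (he.2.trans (by norm_num)))
        (fun n hn t _ => (tzero o.ctx (o.sol N)).1 n hn t)
        (fun n hn t _ => (tzero o.ctx (o.sol N)).2 n hn t) hCe (tprt o.ctx (o.sol N) he hCe) hX
    have hT : θ + δ ≤ Tm N := by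
      by_contra hcon
      rw [not_le] at hcon
      have h5 := hl (Tm N) hN.1 le_rfl hcon.le N (Tm N) ⟨(o.tpos N hN1).le, le_rfl⟩
      have h6 := o.tbig N hN1
      linarith
    exact ⟨hT, fun n => hl (θ + δ) (by linarith) hT le_rfl n (θ + δ) ⟨by linarith, le_rfl⟩⟩
  exact ⟨by linarith, M', key⟩

/-- the sizes of the limit, uniformly -/
lemma lpers (o : Con S h Z Tm U z) (M : ℝ) : ∃ X : ℝ, ∀ θ, Good U Z Tm θ →
    (∀ i, σM i = 0 → ∀ t ∈ Icc 0 θ, αM (lvM i) * ‖z i t‖ ≤ M) → ∀ n, αM n * Ms z θ n ≤ X := by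
  obtain ⟨C, hC⟩ := o.ctx.pers αM (GM h) bM dM o.ctx.chn 1 (max M (αM 0))
  refine ⟨C, fun θ g hM n => ?_⟩
  have hθ1 := g.le1 o
  have h1 : θ ≤ 60 := hθ1.trans (by norm_num)
  have hr : ∀ i, ∀ t ∈ Icc 0 θ, z (br i) t = conj (z i t) := fun i t ht =>
    o.real i t (sub60 h1 ht)
  have hone : ∀ i, ∀ t ∈ Icc 0 θ, ‖z i t‖ ≤ 1 := fun i t ht => o.one i t (sub60 h1 ht)
  have hd := dsol_gen o.ctx (N := n) hr hone (fun i _ t ht => g.ode o i t ht)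
  have hp := prt_gen o.ctx g.1 (fun i => (o.cont i).mono (sub60 h1)) hr hone (g.cnd o)
    (fun i hi t ht => g.oth o i hi t ht)
  have h2 := hC n θ _ _ _ _ g.1 hθ1 hd (fun m _ => by
      show z (Xm m) 0 = _
      rw [o.init, o.ctx.mdat.vX]) (fun m => by
      show z (Ym m) 0 = 0
      rw [o.init, o.ctx.mdat.vY]) (g.cnd o) hp (fun m t ht => ⟨?_, ?_⟩) n le_rfl θ ⟨g.1, le_rfl⟩
  · rw [pow_one] at h2
    exact h2
  · have h3 := hM (Xm m) (o.ctx.mains.sX m) t ht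
    rw [o.ctx.mains.lX] at h3
    exact h3.trans (le_max_left _ _)
  · have h3 := hM (Ym m) (o.ctx.mains.sY m) t ht
    rw [o.ctx.mains.lY] at h3
    exact h3.trans (le_max_left _ _)

end

theorem t_BLOWH_of (hctx : ∀ S, GapS S → ∀ h, Frame h → Ctx S h) (hGAL : Pool.Agent.Y6.M.S_GAL)
    (hLIM : S_LIMR) (hUNI : Pool.Agent.Y6.M.S_UNI) : S_BLOWH := by
  intro S hgap h fr
  have c := hctx S hgap h fr
  choose Z hZ using hGAL Md lvM br σM (cK h) S vM c.ker c.dat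
  set U : Ultrafilter ℕ := Filter.hyperfilter ℕ with hU
  obtain ⟨z, l1, l2, l3, l4, l5, l6⟩ := hLIM Md lvM br σM (cK h) S vM c.ker c.dat Z hZ U
    Nat.hyperfilter_le_atTop
  have hTm : ∀ N, ∃ T, 1 ≤ N → 0 < T ∧ T ≤ 1 ∧ Cnd αM (xs (Z N)) (ys (Z N)) T ∧
      √(αM N) ≤ αM N * Ms (Z N) T N := by
    intro N
    rcases N with _ | N
    · exact ⟨0, fun h => absurd h (by norm_num)⟩
    · obtain ⟨T, hT⟩ := ttime c (hZ (N + 1))
      exact ⟨T, fun _ => hT⟩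
  choose Tm hTm using hTm
  have o : Con S h Z Tm U z := ⟨c, hZ, fun N hN => (hTm N hN).1, fun N hN => (hTm N hN).2.1,
    fun N hN => (hTm N hN).2.2.1, fun N hN => (hTm N hN).2.2.2, Nat.hyperfilter_le_atTop,
    l1, l2, l3, l4, l5, l6⟩
  have hG0 : Good U Z Tm 0 := good_zero o
  set Gd : Set ℝ := {θ | Good U Z Tm θ} with hG
  have hbdd : BddAbove Gd := ⟨1, fun θ hθ => Good.le1 o hθ⟩
  set T := sSup Gd with hT
  have hTle : T ≤ 1 := csSup_le ⟨0, hG0⟩ fun θ hθ => Good.le1 o hθ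
  have hlt : ∀ θ, 0 ≤ θ → θ < T → Good U Z Tm θ := by
    intro θ h0 h1
    obtain ⟨θ', h2, h3⟩ := exists_lt_of_lt_csSup ⟨0, hG0⟩ h1
    exact Good.mono o h2 h0 h3.le
  have hTpos : 0 < T := by
    obtain ⟨X, hX⟩ := lpers o (αM 0 + (ε_bd 1).choose)
    have hX' : ∀ n, αM n * Ms z 0 n ≤ X := by
      refine hX 0 hG0 fun i hi t ht => ?_
      have h0 : t = 0 := le_antisymm ht.2 ht.1
      subst h0
      have hE := (ε_bd 1).choose_spec
      have hE0 : 0 ≤ (ε_bd 1).choose := by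
        have := hE 0
        rw [pow_one] at this
        exact le_trans (mul_nonneg (apos 0).le (ε_pos 0).le) this
      have h1 : ∀ n, αM n * ‖z (Xm n) 0‖ ≤ αM 0 + (ε_bd 1).choose := by
        intro n
        rw [o.init, c.mdat.vX, Complex.norm_real, Real.norm_eq_abs, abs_of_pos (x0_pos n)]
        rcases n with _ | n
        · have : x0 αM 0 ≤ 1 := by norm_num [x0]
          nlinarith [apos 0]
        · have h2 := hE (n + 1)
          rw [pow_one] at h2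
          show αM (n + 1) * εc αM (n + 1) ≤ _
          linarith [apos 0]
      have h2 : ∀ n, αM (n + 1) * ‖z (Ym n) 0‖ ≤ αM 0 + (ε_bd 1).choose := by
        intro n
        rw [o.init, c.mdat.vY, norm_zero, mul_zero]
        linarith [apos 0]
      exact Pool.Agent.Y6.M.main_le c.ker c.mains (z := fun a => z a 0)
        (fun i => o.real i 0 ⟨le_rfl, by norm_num⟩) (f := αM) (fun n => ⟨h1 n, h2 n⟩) i hi
    obtain ⟨δ, M', hδ, hloc⟩ := c.loc αM (GM h) bM dM c.chn (|X| + 1)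
    have h1 := Good.extend o (abs_nonneg X) hδ hloc hG0 fun n => (hX' n).trans (le_abs_self X)
    have h2 : 0 + δ ≤ T := le_csSup hbdd h1
    linarith
  -- the limit is a regular solution on `[0, T)`
  have hderiv : ∀ i, ∀ t ∈ Ico 0 T, HasDerivWithinAt (z i)
      (Kz S lvM σM (fun a => z a t) i + qd (cK h) (fun a => z a t) i) (Ico 0 T) t := by
    intro i t ht
    obtain ⟨θ, h1, h2⟩ := exists_between ht.2
    have h3 := Good.ode o (hlt θ (ht.1.trans h1.le) h2) i t ⟨ht.1, h1.le⟩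
    refine (h3.mono_of_mem_nhdsWithin ?_)
    have h4 : Iio θ ∈ 𝓝[Ico 0 T] t := mem_nhdsWithin_of_mem_nhds (Iio_mem_nhds h1)
    filter_upwards [h4, self_mem_nhdsWithin] with s hs1 hs2
    exact ⟨hs2.1, le_of_lt hs1⟩
  have hK : KSol S lvM br σM (cK h) NM T z := by
    refine ⟨fun i t ht => o.real i t ⟨ht.1, by linarith [ht.2]⟩, hderiv, fun k T' hT' => ?_⟩
    rcases lt_or_ge T' 0 with h0 | h0
    · exact ⟨0, fun t ht => absurd (ht.1.trans ht.2) (not_le.2 h0)⟩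
    · exact Good.reg o (hlt T' h0 hT') k
  -- the main modes are unbounded
  have hunb : ∀ M : ℝ, ∃ t ∈ Ico 0 T, ∃ i, σM i = 0 ∧ M < αM (lvM i) * ‖z i t‖ := by
    intro M
    by_contra hcon
    push Not at hcon
    obtain ⟨X, hX⟩ := lpers o M
    obtain ⟨δ, M', hδ, hloc⟩ := c.loc αM (GM h) bM dM c.chn (|X| + 1)
    set θ := max 0 (T - δ / 2) with hθ
    have hθ0 : 0 ≤ θ := le_max_left _ _
    have hθT : θ < T := max_lt hTpos (by linarith)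
    have g := hlt θ hθ0 hθT
    have h1 := Good.extend o (abs_nonneg X) hδ hloc g fun n =>
      (hX θ g (fun i hi t ht => hcon t ⟨ht.1, ht.2.trans_lt hθT⟩ i hi) n).trans (le_abs_self X)
    have h3 : θ + δ ≤ T := le_csSup hbdd h1
    have := le_max_right 0 (T - δ / 2)
    linarith
  refine ⟨T, z, hTpos, hTle, hK, o.init, ?_, ?_, hunb⟩
  · intro T' z' hT' hK' hi'
    have hinit : ∀ i, z' i 0 = z i 0 := fun i => by rw [hi', o.init]
    have heq : ∀ i, ∀ t ∈ Ico 0 (min T' T), z' i t = z i t :=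
      (hUNI Md lvM br σM (cK h) S αM NM (min T' T) c.ker c.wt).2 z' z
        (Pool.Agent.Y6.M.KSol.mono hK' (min_le_left _ _))
        (Pool.Agent.Y6.M.KSol.mono hK (min_le_right _ _)) hinit
    have hle : T' ≤ T := by
      by_contra hcon
      rw [not_le] at hcon
      rw [min_eq_right hcon.le] at heq
      obtain ⟨C, p, hCp⟩ := c.wt.main'
      obtain ⟨M, hM⟩ := hK'.reg p T hcon
      obtain ⟨t, ht, i, hi, hn⟩ := hunb (|C| * M)
      have h5 := hM t ⟨ht.1, ht.2.le⟩ i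
      rw [heq _ t ht] at h5
      have h6 : αM (lvM i) * ‖z i t‖ ≤ |C| * (NM i ^ p * ‖z i t‖) := by
        rw [← mul_assoc]
        refine mul_le_mul_of_nonneg_right ?_ (norm_nonneg _)
        refine (hCp i hi).trans (mul_le_mul_of_nonneg_right (le_abs_self C) ?_)
        exact pow_nonneg (le_trans zero_le_one (c.wt.one _)) _
      have h7 : |C| * (NM i ^ p * ‖z i t‖) ≤ |C| * M :=
        mul_le_mul_of_nonneg_left h5 (abs_nonneg _)
      linarith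
    refine ⟨hle, fun i t ht => ?_⟩
    rw [min_eq_left hle] at heq
    exact heq i t ht
  · intro t ht
    have h1 := (hUNI Md lvM br σM (cK h) S αM NM T c.ker c.wt).1 z hK t ht
    refine ⟨h1.1, h1.2.trans ?_⟩
    congr 1
    funext a
    rw [o.init]

end Pool.Agent.Y6.H
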