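import Pool.Agent.Y6.H.Stm
import Pool.Agent.Y475.EF.Btc

/-! The bootstrap for general speeds (port of `Pool/Agent/Y475/EF/Btc.lean`). -/

open Set Filter Topology
open scoped ComplexConjugate

set_option autoImplicit false

namespace Pool.Agent.Y6.H

open Pool.Agent.Y6.M (qd mq Kz Ker Adm Dat TSol Wt KSol cX cY Uth εc x0 Mains MDat Z3 C3 Coef dt cr
  cj kc nsq len adv leray Kop IsField IsSol energy enstr Md hs br Frame cK sgz)
open Pool.Agent.Y6.F (DSol Mx κr Prt rk code cd ln NM al kx Xm Ym ML lvM σM αM GM bM dM vM Cnd ChnF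
  Adq env eF rF mx D0 Ty tm xs ys Ms S_LV S_CODE S_SUMS S_VEC S_KERM S_DATM S_LAT S_ENV S_RATE S_ST
  S_IBP S_LIMR S_UC S_MS)
open Pool.Agent.Y475.EF.BTC

theorem t_BTCH : S_BTCH := by
  intro hLV hCODE hENV hRATE hNP hIBP hMS hSUMS hVEC hLAT hST hKERM hDATM S hGAP h hh N z hT θ hθ hCnd
  have hKer := hKERM hLV hCODE hSUMS h hh
  have hDat := (hDATM hLV).1
  obtain ⟨-, -, -, -, -, hfin, hlen, -⟩ := id hLV
  have hln : ∀ i : Md, 1 ≤ ln i ∧ ln i ^ 2 = (nsq i.1.1 : ℝ) := hCODE.2.2.2.2.1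
  have hI60 : Icc (0 : ℝ) θ ⊆ Icc 0 60 := Icc_subset_Icc_right (by linarith [hθ.2])
  have hcont : ∀ i, ContinuousOn (z i) (Icc 0 θ) := by
    intro i
    by_cases hi : lvM i ≤ N
    · intro t ht
      exact ((hT.deriv i hi t (hI60 ht)).continuousWithinAt).mono hI60
    · have : z i = fun _ => 0 := funext fun t => hT.zero i (not_le.1 hi) t
      rw [this]
      exact continuousOn_const
  have hone : ∀ i, ∀ t ∈ Icc 0 θ, ‖z i t‖ ≤ 1 := by
    intro i t ht
    have h1 := hT.energy t (hI60 ht)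
    have h2 : Summable (fun a => ‖z a t‖ ^ 2) := by
      refine summable_of_hasFiniteSupport ((hfin N).subset ?_)
      intro a ha
      by_contra hc
      apply ha
      simp [hT.zero a (not_le.1 hc) t]
    have h3 : ‖z i t‖ ^ 2 ≤ ∑' a, ‖z a t‖ ^ 2 := h2.le_tsum i (fun _ _ => by positivity)
    have h4 : ‖z i t‖ ^ 2 ≤ 1 := h3.trans h1
    exact (sq_le_one_iff₀ (norm_nonneg _)).1 h4
  obtain ⟨hAdq, hMmono, hmain⟩ := hMS hLV z θ hθ.1 hcont (fun i t ht => hT.real i t (hI60 ht)) hone hCnd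
  obtain ⟨hE1, hE2, -⟩ := id hENV
  have hBpos : ∀ i ∈ {i : Md | σM i ≠ 0}, ∀ t ∈ Icc 0 θ,
      0 < (10 ^ 20 : ℝ)⁻¹ * (ln i ^ 7)⁻¹ * env (Ms z t) (ln i) := by
    intro i _ t ht
    have h1 := ((hE1 _ (hAdq t ht)).2.2.2.2 (ln i)).1
    have h2 : 0 < ln i := lt_of_lt_of_le one_pos (hln i).1
    positivity
  have hBmono : ∀ i ∈ {i : Md | σM i ≠ 0}, ∀ s ∈ Icc 0 θ, ∀ t ∈ Icc 0 θ, s ≤ t →
      (10 ^ 20 : ℝ)⁻¹ * (ln i ^ 7)⁻¹ * env (Ms z s) (ln i) ≤
      (10 ^ 20 : ℝ)⁻¹ * (ln i ^ 7)⁻¹ * env (Ms z t) (ln i) := by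
    intro i _ s hs t ht hst
    have h2 : 0 < ln i := lt_of_lt_of_le one_pos (hln i).1
    refine mul_le_mul_of_nonneg_left ?_ (by positivity)
    exact hE2 _ _ (hAdq s hs) (hAdq t ht) (hMmono s hs t ht hst) _ h2
  have hres := boot z (fun i t => (10 ^ 20 : ℝ)⁻¹ * (ln i ^ 7)⁻¹ * env (Ms z t) (ln i))
    {i : Md | σM i ≠ 0} {i : Md | lvM i ≤ N} (hfin N) θ hθ.1 hcont hBpos hBmono
    (fun i hi t _ => hT.zero i (not_le.1 hi) t) ?_ ?_
  · intro i hi t ht
    exact hres t ht i hi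
  · intro i hi
    by_cases hiN : lvM i ≤ N
    · rw [hT.init i hiN]
      exact hDat.main i hi
    · exact hT.zero i (not_le.1 hiN) 0
  · intro t ht hP i hi
    have htI : t ∈ Icc (0 : ℝ) 1 := ⟨ht.1, ht.2.trans hθ.2⟩
    have hsub : ∀ s ∈ Icc 0 t, s ∈ Icc 0 θ := fun s hs => ⟨hs.1, hs.2.trans ht.2⟩
    have hA := hAdq t ht
    have hEt := hE1 _ hA
    have he : ∀ a, ∀ s ∈ Icc 0 t, ‖z a s‖ ≤ eF (Ms z t) a := by
      intro a s hs
      unfold eF
      split_ifs with ha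
      · have h1 := hmain a ha s (hsub s hs) t ht hs.2
        have h2 := hlen a ha
        have h3 := hln a
        have hα : 0 ≤ αM (lvM a) := by unfold αM; positivity
        have h4 : αM (lvM a) ≤ ln a := by
          refine le_of_sq_le_sq ?_ (by linarith [h3.1])
          rw [h3.2]
          exact h2.1
        have h5 : ln a ≤ 2 * αM (lvM a) := by
          refine le_of_sq_le_sq ?_ (by positivity)
          rw [h3.2]
          refine h2.2.trans ?_
          nlinarith [sq_nonneg (αM (lvM a))]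
        rw [hEt.2.2.1 (lvM a) (ln a) (by linarith) (by linarith)]
        exact h1
      · exact (hP s hs a ha).trans (hBmono a ha s (hsub s hs) t ht hs.2)
    have he0 : ∀ a, 0 ≤ eF (Ms z t) a := fun a =>
      (norm_nonneg _).trans (he a 0 ⟨le_rfl, ht.1⟩)
    have hr : ∀ a, ∀ s ∈ Icc 0 t, ‖qd (cK h) (fun b => z b s) a‖ ≤ rF (Ms z t) a := by
      intro a s hs
      obtain ⟨h1, h2⟩ := hRATE hLV hCODE hSUMS hVEC hLAT hENV h hh _ hA a
      refine le_trans ?_ h2
      have h3 : ∀ p : Md × Md, ‖cK h a p.1 p.2 * z p.1 s * z p.2 s‖ ≤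
          ‖cK h a p.1 p.2‖ * eF (Ms z t) p.1 * eF (Ms z t) p.2 := by
        intro p
        rw [norm_mul, norm_mul]
        refine mul_le_mul ?_ (he p.2 s hs) (norm_nonneg _) (mul_nonneg (norm_nonneg _) (he0 _))
        exact mul_le_mul_of_nonneg_left (he p.1 s hs) (norm_nonneg _)
      exact tsum_of_norm_bounded h1.hasSum h3
    have hD : ∀ p : Md × Md, cK h i p.1 p.2 ≠ 0 → 0 < D0 i p →
        D0 i p ≤ |S (lvM p.1) * σM p.1 + S (lvM p.2) * σM p.2 - S (lvM i) * σM i| := by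
      intro p hp hD0
      obtain ⟨hs1, hs2⟩ := hNP h hh i p.1 p.2 hp
      exact hGAP i p hi hs1 hs2 hD0
    have hsplit : ∀ p : Md × Md, tm h (Ms z t) i p = ∑ j ∈ Finset.range 5,
        (if Ty i p = j then tm h (Ms z t) i p else 0) := by
      intro p
      rw [Finset.sum_ite_eq, if_pos (Finset.mem_range.2 (Ty_lt i p))]
    have hj : ∀ j ∈ Finset.range 5,
        Summable (fun p : Md × Md => if Ty i p = j then tm h (Ms z t) i p else 0) ∧
        ∑' p : Md × Md, (if Ty i p = j then tm h (Ms z t) i p else 0) ≤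
          (10 ^ 20)⁻¹ / 10 * (ln i ^ 7)⁻¹ * env (Ms z t) (ln i) := by
      intro j hj
      exact hST j (by have := Finset.mem_range.1 hj; omega) hLV hCODE hSUMS hVEC hLAT hENV h hh _ hA i hi
    have hHS : HasSum (fun p : Md × Md => tm h (Ms z t) i p)
        (∑ j ∈ Finset.range 5, ∑' p : Md × Md, (if Ty i p = j then tm h (Ms z t) i p else 0)) := by
      have h1 := hasSum_sum (fun j hj' => (hj j hj').1.hasSum)
      rw [show (fun p : Md × Md => tm h (Ms z t) i p) = fun p : Md × Md => ∑ j ∈ Finset.range 5,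
        (if Ty i p = j then tm h (Ms z t) i p else 0) from funext hsplit]
      exact h1
    have hle : ∑' p : Md × Md, tm h (Ms z t) i p ≤
        (10 ^ 20 : ℝ)⁻¹ * (ln i ^ 7)⁻¹ * env (Ms z t) (ln i) / 2 := by
      rw [hHS.tsum_eq]
      refine (Finset.sum_le_sum (fun j hj' => (hj j hj').2)).trans ?_
      rw [Finset.sum_const, Finset.card_range, nsmul_eq_mul]
      apply le_of_eq
      push_cast
      ring
    refine le_trans ?_ hle
    exact hIBP Md lvM br σM (cK h) S vM N z hKer hDat hT t htI (eF (Ms z t)) (rF (Ms z t)) he hr i hi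
      (D0 i) hD hHS.summable t ⟨ht.1, le_rfl⟩

end Pool.Agent.Y6.H
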