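import Pool.Agent.Y6.F.Defs2

/-!
Definitions used in the theorem on random perturbations (`S_MAING`).
-/

open Set Filter Topology MeasureTheory
open scoped ComplexConjugate

set_option autoImplicit false

namespace Pool.Agent.Y6.H

open Pool.Agent.Y6.M (Z3 Coef len IsSol energy enstr Md br sgz)
open Pool.Agent.Y6.F (ln kx Xm Ym)

/-- the special modes: the frequencies `±α n e_{n mod 3}` with the helicity `+`,
`±(α n e_{n mod 3} + α (n + 1) e_{(n + 1) mod 3})` with the helicity `-` -/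
def Sp (i : Md) : Prop := ∃ n, i = Xm n ∨ i = br (Xm n) ∨ i = Ym n ∨ i = br (Ym n)

/-! ### The symbols -/

/-- the symbols: the multiplier acts on the part of helicity `+` of the frequency `k` as
`i ω (k, +)`, on the part of helicity `-` as `i ω (k, -)` -/
noncomputable def mH (ω : Md → ℝ) (k : Z3) : ℝ :=
  open Classical in
  if hk : k = 0 then 0 else (ω (⟨k, hk⟩, true) + ω (⟨k, hk⟩, false)) / 2

noncomputable def nH (ω : Md → ℝ) (k : Z3) : ℝ :=
  open Classical in
  if hk : k = 0 then 0 else (ω (⟨k, hk⟩, true) - ω (⟨k, hk⟩, false)) / 2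

/-- blow-up from arbitrarily small data -/
def Blow (ω : Md → ℝ) : Prop := ∀ (q : ℕ) (ε : ℝ), 0 < ε →
  ∃ (T : ℝ) (V : ℝ → Coef), (∀ k j, len k ^ q * ‖V 0 k j‖ ≤ ε) ∧ 0 < T ∧
  IsSol (mH ω) (nH ω) T V ∧
  (∀ (T' : ℝ) (W : ℝ → Coef), 0 < T' → IsSol (mH ω) (nH ω) T' W → W 0 = V 0 →
    T' ≤ T ∧ ∀ t ∈ Ico 0 T', W t = V t) ∧
  (∀ t ∈ Ico 0 T, energy (V t) = energy (V 0)) ∧
  ∀ M : ℝ, ∃ t ∈ Ico 0 T, M < enstr (V t)

/-! ### Random symbols -/

/-- the uniform distribution on `[-1, 1]` -/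
noncomputable def unif : Measure ℝ := (2 : ENNReal)⁻¹ • (volume.restrict (Icc (-1) 1))

/-- probability measures on the line with densities `≤ C` -/
def Bd (C : NNReal) (ν : Md → Measure ℝ) : Prop :=
  (∀ i, IsProbabilityMeasure (ν i)) ∧ ∀ i, ν i ≤ C • (volume : Measure ℝ)

/-- the representative of the modes `i, br i` -/
noncomputable def rp (i : Md) : Md := if sgz i.1.1 = 1 then i else br i

/-- the mode `(L k, s)` -/
def dil (L : ℕ) (hL : L ≠ 0) (i : Md) : Md :=
  (⟨fun j => (L : ℤ) * i.1.1 j, fun h => i.1.2 (funext fun j => by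
    have h1 := congrFun h j
    rcases mul_eq_zero.1 h1 with h2 | h2
    · exact absurd (by exact_mod_cast h2) hL
    · exact h2)⟩, i.2)

/-- the symbol `ω₀`, perturbed at random at the frequencies in `L Z³`, except at the special
modes `(L k, s)`, `(k, s)` special -/
noncomputable def ωL (L : ℕ) (hL : L ≠ 0) (δ : ℝ) (ω₀ X : Md → ℝ) (i : Md) : ℝ :=
  open Classical in
  ω₀ i + if ∃ j, ¬ Sp j ∧ i = dil L hL j then δ * ((sgz i.1.1 : ℝ) * ln i ^ 20 * X (rp i)) else 0

end Pool.Agent.Y6.H
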