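import Pool.Agent.Y6.H.GenA
import Pool.Agent.Y431.HR.Aeh

/-!
Adaptation of `Pool/Agent/Y431/HR/Aeh.lean` of helper431: the detuning of the random symbol holds almost surely
-/

set_option autoImplicit false

open Set Filter Topology MeasureTheory

namespace Pool.Agent.Y6.H.GenB

open Pool.Agent.Y6.H
open Pool.Agent.Y6.M (Z3 Md br sgz)
open Pool.Agent.Y6.F (ln mx S_CODE S_LAT)

open Pool.Agent.Y431.HR.AEH hiding aex' part1 part2 part3

theorem aex' {ν : Md → Measure ℝ} (h : AEXf ν) (I : Type) [Countable I] (J : I → Finset Md) (c : I → Md → ℝ)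
    (r d g : I → ℝ) (hd : ∀ τ, 0 ≤ d τ) (hg : Summable g)
    (hj : ∀ τ, ∃ j, j ∈ J τ ∧ c τ j ≠ 0 ∧ d τ / |c τ j| ≤ g τ) :
    ∀ᵐ X : Md → ℝ ∂(Measure.infinitePi ν), ∃ κ : ℝ, 0 < κ ∧
      ∀ τ, κ * d τ ≤ |∑ j ∈ J τ, c τ j * X j + r τ| := by
  choose j0 h1 h2 h3 using hj
  exact h I J c j0 r d hd (fun τ => ⟨h1 τ, h2 τ⟩)
    (Summable.of_nonneg_of_le (fun τ => div_nonneg (hd τ) (abs_nonneg _)) h3 hg)

theorem part1 {ν : Md → Measure ℝ} (hA : AEXf ν) (hC : S_CODE) (hL : S_LAT) (ω₀ : Md → ℝ) {δ : ℝ} (hδ : 0 < δ) :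
    ∀ᵐ X : Md → ℝ ∂(Measure.infinitePi ν), ∃ κ : ℝ, 0 < κ ∧
      ∀ i, ¬ Sp i → κ * ln i ^ 16 ≤ |ωX δ ω₀ X i| := by
  have l1 : ∀ i, 1 ≤ ln i := fun i => (hC.2.2.2.2.1 i).1
  have key := aex' hA {i : Md // ¬ Sp i} (fun i => {rp i.1}) (fun i _ => cf δ i.1)
    (fun i => ω₀ i.1) (fun i => ln i.1 ^ 16) (fun i => δ⁻¹ * (ln i.1 ^ 4)⁻¹)
    (fun i => by have := l1 i.1; positivity)
    ((hL.1.1.comp_injective Subtype.val_injective).mul_left δ⁻¹)
    (fun i => ⟨rp i.1, Finset.mem_singleton_self _, cf_ne hδ (l1 i.1), by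
      rw [abs_cf hδ (l1 i.1)]
      have h0 : 0 < ln i.1 := lt_of_lt_of_le one_pos (l1 i.1)
      refine le_of_eq ?_
      field_simp⟩)
  filter_upwards [key] with X hX
  obtain ⟨κ, hκ, h⟩ := hX
  refine ⟨κ, hκ, fun i hi => ?_⟩
  have h1 := h ⟨i, hi⟩
  rw [Finset.sum_singleton] at h1
  rw [ωX_eq hi]
  exact h1

theorem part2 {ν : Md → Measure ℝ} (hA : AEXf ν) (hC : S_CODE) (hL : S_LAT) (ω₀ : Md → ℝ) {δ : ℝ} (hδ : 0 < δ) :
    ∀ᵐ X : Md → ℝ ∂(Measure.infinitePi ν), ∃ κ : ℝ, 0 < κ ∧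
      ∀ i a, ¬ Sp i → ¬ Sp a → npar a.1.1 i.1.1 →
        κ * max (ln a) (ln i) ^ 12 ≤ |ωX δ ω₀ X a - ωX δ ω₀ X i| := by
  classical
  have l1 : ∀ i, 1 ≤ ln i := fun i => (hC.2.2.2.2.1 i).1
  have hs : Summable fun p : Md × Md => (ln p.1 ^ 4)⁻¹ * (ln p.2 ^ 4)⁻¹ :=
    hL.1.1.mul_of_nonneg hL.1.1 (fun i => by have := l1 i; positivity)
      (fun i => by have := l1 i; positivity)
  have key := aex' hA {p : Md × Md // ¬ Sp p.1 ∧ ¬ Sp p.2 ∧ npar p.2.1.1 p.1.1.1}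
    (fun p => {rp p.1.2, rp p.1.1})
    (fun p j => if j = rp p.1.2 then cf δ p.1.2 else -cf δ p.1.1)
    (fun p => ω₀ p.1.2 - ω₀ p.1.1) (fun p => max (ln p.1.2) (ln p.1.1) ^ 12)
    (fun p => δ⁻¹ * ((ln p.1.1 ^ 4)⁻¹ * (ln p.1.2 ^ 4)⁻¹))
    (fun p => by have := (l1 p.1.2).trans (le_max_left (ln p.1.2) (ln p.1.1)); positivity)
    ((hs.comp_injective Subtype.val_injective).mul_left δ⁻¹)
    (fun p => by
      obtain ⟨⟨i, a⟩, hi, ha, hn⟩ := p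
      have hne : rp i ≠ rp a := (npar_rp hn).symm
      rcases le_total (ln i) (ln a) with h | h
      · refine ⟨rp a, Finset.mem_insert_self _ _, ?_, ?_⟩
        · simp only [if_true]
          exact cf_ne hδ (l1 a)
        · simp only [if_true]
          rw [abs_cf hδ (l1 a), max_eq_left h]
          exact ratio hδ (l1 i) (l1 a) h le_rfl
      · refine ⟨rp i, Finset.mem_insert_of_mem (Finset.mem_singleton_self _), ?_, ?_⟩
        · simp only [if_neg hne]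
          exact neg_ne_zero.2 (cf_ne hδ (l1 i))
        · simp only [if_neg hne]
          rw [abs_neg, abs_cf hδ (l1 i), max_eq_right h]
          exact ratio hδ (l1 i) (l1 a) le_rfl h)
  filter_upwards [key] with X hX
  obtain ⟨κ, hκ, h⟩ := hX
  refine ⟨κ, hκ, fun i a hi ha hn => ?_⟩
  have h1 := h ⟨(i, a), hi, ha, hn⟩
  have hne : rp i ≠ rp a := (npar_rp hn).symm
  rw [Finset.sum_pair hne.symm] at h1
  simp only [if_true, if_neg hne] at h1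
  rw [ωX_eq hi, ωX_eq ha]
  refine h1.trans (le_of_eq ?_)
  congr 1
  ring

theorem npar_add {a b i : Z3} (h : a + b = i) (hn : npar a b) : npar a i ∧ npar b i := by
  have h0 := congrFun h 0
  have h1 := congrFun h 1
  have h2 := congrFun h 2
  simp only [Pi.add_apply] at h0 h1 h2
  constructor
  · rintro ⟨k1, k2, k3⟩
    apply hn
    rw [← h0, ← h1] at k1
    rw [← h1, ← h2] at k2
    rw [← h2, ← h0] at k3
    exact ⟨by linarith, by linarith, by linarith⟩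
  · rintro ⟨k1, k2, k3⟩
    apply hn
    rw [← h0, ← h1] at k1
    rw [← h1, ← h2] at k2
    rw [← h2, ← h0] at k3
    exact ⟨by linarith, by linarith, by linarith⟩

/-- the triples -/
def Tr (t : Md × (Md × Md)) : Prop := ¬ Sp t.1 ∧ ¬ Sp t.2.1 ∧ ¬ Sp t.2.2 ∧
  t.2.1.1.1 + t.2.2.1.1 = t.1.1.1 ∧ npar t.2.1.1.1 t.2.2.1.1

theorem Tr_inj : Function.Injective
    (fun t : {t : Md × (Md × Md) // Tr t} => (((t.1.2.1, t.1.2.2), t.1.1.2) : (Md × Md) × Bool)) := by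
  rintro ⟨⟨i, a, b⟩, h⟩ ⟨⟨i', a', b'⟩, h'⟩ he
  have e1 : a = a' := congrArg (fun q : (Md × Md) × Bool => q.1.1) he
  have e2 : b = b' := congrArg (fun q : (Md × Md) × Bool => q.1.2) he
  have e3 : i.2 = i'.2 := congrArg (fun q : (Md × Md) × Bool => q.2) he
  have e4 : a.1.1 + b.1.1 = i.1.1 := h.2.2.2.1
  have e5 : a'.1.1 + b'.1.1 = i'.1.1 := h'.2.2.2.1
  subst e1 e2
  have e6 : i = i' := Prod.ext (Subtype.ext (e4.symm.trans e5)) e3
  subst e6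
  rfl

/-- the coefficients of a triple -/
noncomputable def ct (δ : ℝ) (i a b j : Md) : ℝ :=
  open Classical in
  if j = rp a then cf δ a else if j = rp b then cf δ b else -cf δ i

theorem mx_cases (i a b : Md) : mx i (a, b) = ln a ∨ mx i (a, b) = ln b ∨ mx i (a, b) = ln i := by
  unfold mx
  rcases max_choice (max (ln a) (ln b)) (ln i) with h | h
  · rcases max_choice (ln a) (ln b) with h' | h'
    · left; exact h.trans h'
    · right; left; exact h.trans h'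
  · right; right; exact h

theorem ct_ex {δ : ℝ} (hδ : 0 < δ) (l1 : ∀ i, 1 ≤ ln i) {i a b : Md} {J : Finset Md}
    (ja : rp a ∈ J) (jb : rp b ∈ J) (ji : rp i ∈ J) (hab : a.1.1 + b.1.1 = i.1.1)
    (hn : npar a.1.1 b.1.1) : ∃ j, j ∈ J ∧ ct δ i a b j ≠ 0 ∧
      mx i (a, b) ^ 12 / |ct δ i a b j| ≤ δ⁻¹ * ((ln a ^ 4)⁻¹ * (ln b ^ 4)⁻¹) := by
  obtain ⟨n1, n2⟩ := npar_add hab hn
  have ba := (npar_rp hn).symm
  have ia := (npar_rp n1).symm
  have ib := (npar_rp n2).symm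
  have ma : ln a ≤ mx i (a, b) := (le_max_left (ln a) (ln b)).trans (le_max_left _ _)
  have mb : ln b ≤ mx i (a, b) := (le_max_right (ln a) (ln b)).trans (le_max_left _ _)
  have ca : ct δ i a b (rp a) = cf δ a := by unfold ct; rw [if_pos rfl]
  have cb : ct δ i a b (rp b) = cf δ b := by unfold ct; rw [if_neg ba, if_pos rfl]
  have ci : ct δ i a b (rp i) = -cf δ i := by unfold ct; rw [if_neg ia, if_neg ib]
  rcases mx_cases i a b with hc | hc | hc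
  · refine ⟨rp a, ja, ?_, ?_⟩
    · rw [ca]
      exact cf_ne hδ (l1 a)
    · rw [ca, abs_cf hδ (l1 a), hc]
      rw [hc] at mb
      exact ratio hδ (l1 a) (l1 b) le_rfl mb
  · refine ⟨rp b, jb, ?_, ?_⟩
    · rw [cb]
      exact cf_ne hδ (l1 b)
    · rw [cb, abs_cf hδ (l1 b), hc]
      rw [hc] at ma
      exact ratio hδ (l1 a) (l1 b) ma le_rfl
  · refine ⟨rp i, ji, ?_, ?_⟩
    · rw [ci]
      exact neg_ne_zero.2 (cf_ne hδ (l1 i))
    · rw [ci, abs_neg, abs_cf hδ (l1 i), hc]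
      rw [hc] at ma mb
      exact ratio hδ (l1 a) (l1 b) ma mb

theorem ct_sum [DecidableEq Md] {δ : ℝ} {ω₀ X : Md → ℝ} {i a b : Md} (hi : ¬ Sp i) (ha : ¬ Sp a)
    (hb : ¬ Sp b) (hab : a.1.1 + b.1.1 = i.1.1) (hn : npar a.1.1 b.1.1) :
    ∑ j ∈ ({rp a, rp b, rp i} : Finset Md), ct δ i a b j * X j + (ω₀ a + ω₀ b - ω₀ i) =
      ωX δ ω₀ X a + ωX δ ω₀ X b - ωX δ ω₀ X i := by
  obtain ⟨n1, n2⟩ := npar_add hab hn
  have ab := npar_rp hn
  have ai := npar_rp n1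
  have bi := npar_rp n2
  have ca : ct δ i a b (rp a) = cf δ a := by unfold ct; rw [if_pos rfl]
  have cb : ct δ i a b (rp b) = cf δ b := by unfold ct; rw [if_neg ab.symm, if_pos rfl]
  have ci : ct δ i a b (rp i) = -cf δ i := by unfold ct; rw [if_neg ai.symm, if_neg bi.symm]
  have hm : rp a ∉ ({rp b, rp i} : Finset Md) := by
    rw [Finset.mem_insert, Finset.mem_singleton]
    exact not_or.2 ⟨ab, ai⟩
  rw [Finset.sum_insert hm, Finset.sum_pair bi, ca, cb, ci, ωX_eq hi, ωX_eq ha, ωX_eq hb]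
  ring

theorem sum_abs {M I : Type} (f : M → ℝ) (hf : Summable f) (h0 : ∀ m, 0 ≤ f m)
    (φ : I → (M × M) × Bool) (hφ : Function.Injective φ) :
    Summable (fun t => f (φ t).1.1 * f (φ t).1.2) := by
  have hs : Summable fun p : M × M => f p.1 * f p.2 := hf.mul_of_nonneg hf h0 h0
  have h1 : Summable (fun _ : Bool => (1 : ℝ)) := (hasSum_fintype _).summable
  have hs2 : Summable fun q : (M × M) × Bool => (f q.1.1 * f q.1.2) * (1 : ℝ) :=
    hs.mul_of_nonneg h1 (fun p => mul_nonneg (h0 _) (h0 _)) (fun _ => zero_le_one)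
  simp only [mul_one] at hs2
  exact hs2.comp_injective hφ

theorem Tr_sum (f : Md → ℝ) (hf : Summable f) (h0 : ∀ m, 0 ≤ f m) :
    Summable (fun t : {t : Md × (Md × Md) // Tr t} => f t.1.2.1 * f t.1.2.2) :=
  sum_abs f hf h0 _ Tr_inj

theorem part3 {ν : Md → Measure ℝ} (hA : AEXf ν) (hC : S_CODE) (hL : S_LAT) (ω₀ : Md → ℝ) {δ : ℝ} (hδ : 0 < δ) :
    ∀ᵐ X : Md → ℝ ∂(Measure.infinitePi ν), ∃ κ : ℝ, 0 < κ ∧
      ∀ i a b, ¬ Sp i → ¬ Sp a → ¬ Sp b → a.1.1 + b.1.1 = i.1.1 → npar a.1.1 b.1.1 →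
        κ * mx i (a, b) ^ 12 ≤ |ωX δ ω₀ X a + ωX δ ω₀ X b - ωX δ ω₀ X i| := by
  classical
  have l1 : ∀ i, 1 ≤ ln i := fun i => (hC.2.2.2.2.1 i).1
  have h0 : ∀ a : Md, 0 ≤ (ln a ^ 4)⁻¹ := fun a =>
    inv_nonneg.2 (pow_nonneg (zero_le_one.trans (l1 a)) 4)
  have key := aex' hA {t : Md × (Md × Md) // Tr t}
    (fun t => {rp t.1.2.1, rp t.1.2.2, rp t.1.1})
    (fun t j => ct δ t.1.1 t.1.2.1 t.1.2.2 j)
    (fun t => ω₀ t.1.2.1 + ω₀ t.1.2.2 - ω₀ t.1.1) (fun t => mx t.1.1 (t.1.2.1, t.1.2.2) ^ 12)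
    (fun t => δ⁻¹ * ((ln t.1.2.1 ^ 4)⁻¹ * (ln t.1.2.2 ^ 4)⁻¹))
    (fun t => pow_nonneg (zero_le_one.trans ((l1 t.1.1).trans (le_max_right _ _))) 12)
    ((Tr_sum (fun a => (ln a ^ 4)⁻¹) hL.1.1 h0).mul_left δ⁻¹)
    (fun t => ct_ex hδ l1 (Finset.mem_insert_self _ _)
      (Finset.mem_insert_of_mem (Finset.mem_insert_self _ _))
      (Finset.mem_insert_of_mem (Finset.mem_insert_of_mem (Finset.mem_singleton_self _)))
      t.2.2.2.2.1 t.2.2.2.2.2)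
  filter_upwards [key] with X hX
  obtain ⟨κ, hκ, h⟩ := hX
  refine ⟨κ, hκ, fun i a b hi ha hb hab hn => ?_⟩
  have h1 := h ⟨(i, a, b), hi, ha, hb, hab, hn⟩
  rw [← ct_sum hi ha hb hab hn]
  exact h1

theorem aehg {ν : Md → Measure ℝ} (hA : AEXf ν) (hC : S_CODE) (hL : S_LAT) (ω₀ : Md → ℝ) {δ : ℝ}
    (hδ : 0 < δ) : ∀ᵐ X : Md → ℝ ∂(Measure.infinitePi ν), ∃ κ : ℝ, 0 < κ ∧
      GapH κ (ωX δ ω₀ X) := by
  have l1 : ∀ i, 1 ≤ ln i := fun i => (hC.2.2.2.2.1 i).1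
  filter_upwards [part1 hA hC hL ω₀ hδ, part2 hA hC hL ω₀ hδ, part3 hA hC hL ω₀ hδ] with X h1 h2 h3
  obtain ⟨κ1, k1, h1⟩ := h1
  obtain ⟨κ2, k2, h2⟩ := h2
  obtain ⟨κ3, k3, h3⟩ := h3
  refine ⟨min κ1 (min κ2 κ3), lt_min k1 (lt_min k2 k3), ?_, ?_, ?_⟩
  · intro i hi
    refine le_trans (mul_le_mul_of_nonneg_right (min_le_left _ _) ?_) (h1 i hi)
    have := l1 i
    positivity
  · intro i a hi ha hn
    refine le_trans (mul_le_mul_of_nonneg_right ((min_le_right _ _).trans (min_le_left _ _)) ?_)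
      (h2 i a hi ha hn)
    have := (l1 a).trans (le_max_left (ln a) (ln i))
    positivity
  · intro i a b hi ha hb hab hn
    refine le_trans (mul_le_mul_of_nonneg_right ((min_le_right _ _).trans (min_le_right _ _)) ?_)
      (h3 i a b hi ha hb hab hn)
    have : 1 ≤ mx i (a, b) := (l1 i).trans (le_max_right _ _)
    positivity

end Pool.Agent.Y6.H.GenB
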