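import Pool.Agent.Y6.H.Stm

/-!
Random perturbations which act only on the frequencies in `L Z³`.
-/

open Set Filter Topology MeasureTheory
open scoped ComplexConjugate

set_option autoImplicit false

namespace Pool.Agent.Y6.H

open Pool.Agent.Y6.M (qd mq Kz Ker Adm Dat TSol Wt KSol cX cY Uth εc x0 Mains MDat Z3 C3 Coef dt cr
  cj kc nsq len adv leray Kop IsField IsSol energy enstr Md hs br Frame cK sgz)
open Pool.Agent.Y6.F (rk code cd ln NM al kx Xm Ym S_UNIQ)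

/-- dilation, deterministic part: `L⁻¹ V(t, L x)` -/
def S_DILB : Prop := S_UNIQ → ∀ (L : ℕ) (hL : L ≠ 0) (ω : Md → ℝ), (∀ i, ω (br i) = -ω i) →
  Blow (fun i => ω (dil L hL i)) → Blow ω

/-- The main theorem. -/
def S_MAINL : Prop := ∀ (L : ℕ) (hL : L ≠ 0) (ω₀ : Md → ℝ), (∀ i, ω₀ (br i) = -ω₀ i) →
  (∀ j, Sp j → ω₀ (dil L hL j) = 0) → ∀ δ : ℝ, 0 < δ →
  ∀ᵐ X : Md → ℝ ∂(Measure.infinitePi fun _ : Md => unif), Blow (ωL L hL δ ω₀ X)

/-- dilation, random part -/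
def S_DILM : Prop := (∀ (ω : Md → ℝ) (L : ℕ) (hL : L ≠ 0), (∀ i, ω (br i) = -ω i) →
  Blow (fun i => ω (dil L hL i)) → Blow ω) → S_MAINH → S_MAINL

end Pool.Agent.Y6.H
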