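import Pool.Agent.Y6.H.Main0
import Pool.Agent.Y6.H.Stm2
import Pool.Agent.Y693.HR.GAPD
import Pool.Agent.Y465.HR.PH3H
import Pool.Agent.Y730.HR.Sch
import Pool.Agent.Y64.HR.AEX
import Pool.Agent.Y431.HR.Aeh

/-! Assembly: random perturbations. -/

open MeasureTheory

set_option autoImplicit false

namespace Pool.Agent.Y6.H

theorem t_MAINH1 : S_MAINH1 :=
  Pool.Agent.Y465.HR.PH3H.t_PH3H Pool.Agent.Y363.EF.LV.t_LV Pool.Agent.Y693.HR.GAPD.t_SPH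
    Pool.Agent.Y710.EF.CODE.t_CODE Pool.Agent.Y949.EF.Datm.t_DATM Pool.Agent.Y693.HR.GAPD.t_GAPD
    t_BLOWH

theorem mainH_of (aeh : S_AEH) : S_MAINH := by
  intro ω₀ h0 δ hδ
  filter_upwards [aeh Pool.Agent.Y64.HR.AEX.t_AEX Pool.Agent.Y710.EF.CODE.t_CODE
    Pool.Agent.Y287.EF.LAT.t_LAT ω₀ h0 δ hδ] with X hX
  obtain ⟨κ, hκ, hg⟩ := hX
  exact Pool.Agent.Y730.HR.SCH.t_SCH t_MAINH1 _ (Pool.Agent.Y693.HR.GAPD.t_ODDX δ ω₀ X h0) κ hκ hg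

theorem mainL_of (aeh : S_AEH) (dilb : S_DILB) (dilm : S_DILM) : S_MAINL :=
  dilm (fun ω L hL h => dilb Pool.Agent.Y576.EF.Uniq.t_UNIQ L hL ω h) (mainH_of aeh)

theorem t_MAINH : S_MAINH := mainH_of Pool.Agent.Y431.HR.AEH.t_AEH

end Pool.Agent.Y6.H
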