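import Pool.Agent.Y6.H.Blow2
import Pool.Agent.Y6.H.Btc
import Pool.Agent.Y6.F.Main
import Pool.Agent.Y704.EP.VEC

/-! Assembly: blow-up for the system of the modes, general speeds. -/

set_option autoImplicit false

namespace Pool.Agent.Y6.H

open Pool.Agent.Y6.M (C3 Md Frame)
open Pool.Agent.Y6.F (t_SUMS t_STall S_CHAIN S_PERSR S_LOCR)

theorem t_NPAR : S_NPAR := fun h hf i a b hne =>
  (Pool.Agent.Y704.EP.VEC.t_VEC h hf).2.2.2 i a b hne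

theorem ctx_of (hC : S_CHAIN) (hP : S_PERSR) (hL : S_LOCR) (S : ℕ → ℝ) (hS : GapS S)
    (h : Md → C3) (hf : Frame h) : Ctx S h where
  lv := Pool.Agent.Y363.EF.LV.t_LV
  envl := Pool.Agent.Y592.EF.t_ENV
  ms := Pool.Agent.Y44.EF.MS.t_MS
  ker := Pool.Agent.Y983.EF.KERM.t_KERM Pool.Agent.Y363.EF.LV.t_LV
    Pool.Agent.Y710.EF.CODE.t_CODE t_SUMS h hf
  chn := Pool.Agent.Y344.EF.CHN.t_CHN Pool.Agent.Y287.EF.VEC.t_VEC h hf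
  mains := Pool.Agent.Y37.EF.Tab.t_TAB Pool.Agent.Y363.EF.LV.t_LV t_SUMS h hf
  wt := Pool.Agent.Y67.EF.WTM.t_WTM Pool.Agent.Y363.EF.LV.t_LV Pool.Agent.Y710.EF.CODE.t_CODE h hf
  dat := (Pool.Agent.Y949.EF.Datm.t_DATM Pool.Agent.Y363.EF.LV.t_LV).1
  mdat := (Pool.Agent.Y949.EF.Datm.t_DATM Pool.Agent.Y363.EF.LV.t_LV).2
  btc := t_BTCH Pool.Agent.Y363.EF.LV.t_LV Pool.Agent.Y710.EF.CODE.t_CODE
    Pool.Agent.Y592.EF.t_ENV Pool.Agent.Y550.EF.Rate.t_RATE t_NPAR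
    Pool.Agent.Y44.EF.IBP.t_IBP Pool.Agent.Y44.EF.MS.t_MS t_SUMS Pool.Agent.Y287.EF.VEC.t_VEC
    Pool.Agent.Y287.EF.LAT.t_LAT t_STall Pool.Agent.Y983.EF.KERM.t_KERM
    Pool.Agent.Y949.EF.Datm.t_DATM S hS h hf
  prt := Pool.Agent.Y407.EF.PRT.t_PRT Pool.Agent.Y550.EF.Rate.t_RATE
    Pool.Agent.Y363.EF.LV.t_LV Pool.Agent.Y710.EF.CODE.t_CODE t_SUMS Pool.Agent.Y287.EF.VEC.t_VEC
    Pool.Agent.Y287.EF.LAT.t_LAT Pool.Agent.Y592.EF.t_ENV h hf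
  code := Pool.Agent.Y710.EF.CODE.t_CODE
  chain := hC
  pers := hP
  loc := hL
  uc := Pool.Agent.Y44.EF.UC.t_UC

theorem t_BLOWH : S_BLOWH :=
  t_BLOWH_of (fun S hS h hf => ctx_of Pool.Agent.Y6.F.t_CHAIN Pool.Agent.Y258.EF.CH5.t_PERSR
    Pool.Agent.Y614.EF.Locr.t_LOCR S hS h hf) Pool.Agent.Y153.EM.t_GAL
    Pool.Agent.Y38.EF.LIMR.t_LIMR Pool.Agent.Y154.EM.UNI.t_UNI

end Pool.Agent.Y6.H
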