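import Pool.Agent.Y6.H.Main
import Pool.Agent.Y287.HR.Cnt
import Pool.Agent.Y898.HR.Dilb
import Pool.Agent.Y917.HR.DILM

/-! Assembly, with the dilation and the count. -/

open MeasureTheory

set_option autoImplicit false

namespace Pool.Agent.Y6.H

theorem unif_prob : IsProbabilityMeasure unif := by
  infer_instance

theorem t_CNT : S_CNT := Pool.Agent.Y287.HR.Cnt.t_CNT

theorem t_MAINL : S_MAINL :=
  mainL_of Pool.Agent.Y431.HR.AEH.t_AEH Pool.Agent.Y898.HR.Dilb.t_DILB
    Pool.Agent.Y917.HR.DILM.t_DILM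

end Pool.Agent.Y6.H
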