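import Pool.Agent.Y6.H.Main3
import Pool.Agent.Y6.H.GenB

/-! Assembly: random coefficients with bounded densities. -/

open Set Filter Topology MeasureTheory

set_option autoImplicit false

namespace Pool.Agent.Y6.H

open Pool.Agent.Y6.M (Md br)
open Pool.Agent.Y917.HR.DILM (dil_br dil_inj ωL_odd ωL_dil)

theorem mainHG {C : NNReal} {ν : Md → Measure ℝ} (hν : Bd C ν) (ω₀ : Md → ℝ) (h0 : Odd0 ω₀)
    {δ : ℝ} (hδ : 0 < δ) : ∀ᵐ X : Md → ℝ ∂(Measure.infinitePi ν), Blow (ωX δ ω₀ X) := by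
  filter_upwards [Pool.Agent.Y6.H.GenB.aehg (aexg hν) Pool.Agent.Y710.EF.CODE.t_CODE
    Pool.Agent.Y287.EF.LAT.t_LAT ω₀ hδ] with X hX
  obtain ⟨κ, hκ, hg⟩ := hX
  exact Pool.Agent.Y730.HR.SCH.t_SCH t_MAINH1 _ (Pool.Agent.Y693.HR.GAPD.t_ODDX δ ω₀ X h0) κ hκ hg

theorem t_MAING : S_MAING := by
  intro C ν hν L hL ω₀ hodd hsp δ hδ
  have hodd' : Odd0 fun i => ω₀ (dil L hL i) :=
    ⟨fun i => by
      show ω₀ (dil L hL (br i)) = -ω₀ (dil L hL i)
      rw [dil_br, hodd], fun i hi => hsp i hi⟩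
  have hL0 : (0 : ℝ) < (L : ℝ) ^ 20 := by
    have : 0 < L := Nat.pos_of_ne_zero hL
    positivity
  have hν' : Bd C (fun i => ν (dil L hL i)) := ⟨fun i => hν.1 _, fun i => hν.2 _⟩
  have h := mainHG hν' _ hodd' (mul_pos hδ hL0)
  have hp := hν.1
  have hmap : (Measure.infinitePi ν).map (fun X i => X (dil L hL i)) =
      Measure.infinitePi fun i => ν (dil L hL i) :=
    Measure.map_infinitePi_infinitePi_of_inj (P := ν) (dil_inj L hL)
  rw [← hmap] at h
  have hmeas : Measurable (fun (X : Md → ℝ) (i : Md) => X (dil L hL i)) :=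
    measurable_pi_lambda _ fun i => measurable_pi_apply _
  have h2 := ae_of_ae_map hmeas.aemeasurable h
  filter_upwards [h2] with X hX
  refine Pool.Agent.Y898.HR.Dilb.t_DILB Pool.Agent.Y576.EF.Uniq.t_UNIQ L hL _
    (ωL_odd L hL δ ω₀ X hodd) ?_
  have e : (fun i => ωL L hL δ ω₀ X (dil L hL i)) =
      ωX (δ * (L : ℝ) ^ 20) (fun i => ω₀ (dil L hL i)) (fun i => X (dil L hL i)) :=
    funext fun i => ωL_dil L hL δ ω₀ X i
  rw [e]
  exact hX

/-- the uniform law on `[-1, 1]` -/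
theorem bd_unif : Bd (1 / 2) (fun _ : Md => unif) := by
  refine ⟨fun _ => unif_prob, fun _ => ?_⟩
  have e : (1 / 2 : NNReal) • (volume : Measure ℝ) = (2 : ENNReal)⁻¹ • (volume : Measure ℝ) := by
    ext s _
    rw [Measure.smul_apply, Measure.smul_apply, ENNReal.smul_def, smul_eq_mul, smul_eq_mul]
    congr 1
    rw [one_div, ENNReal.coe_inv (by norm_num)]
    norm_num
  rw [e]
  refine Measure.le_iff'.2 fun s => ?_
  show ((2 : ENNReal)⁻¹ • (volume.restrict (Icc (-1) 1) : Measure ℝ)) s ≤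
    ((2 : ENNReal)⁻¹ • (volume : Measure ℝ)) s
  rw [Measure.smul_apply, Measure.smul_apply, smul_eq_mul, smul_eq_mul]
  exact mul_le_mul_right (Measure.restrict_apply_le _ _) _

end Pool.Agent.Y6.H
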