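import Pool.Agent.Y6.F.Stm2
import Pool.Agent.Y6.H.Defs

/-!
Definitions and statements: Euler equations with an arbitrary skew-adjoint Fourier multiplier
which vanishes at the modes of the chain, perturbed at random.
-/

open Set Filter Topology MeasureTheory
open scoped ComplexConjugate

set_option autoImplicit false

namespace Pool.Agent.Y6.H

open Pool.Agent.Y6.M (qd mq Kz Ker Adm Dat TSol Wt KSol cX cY Uth εc x0 Mains MDat Z3 C3 Coef dt cr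
  cj kc nsq len adv leray Kop IsField IsSol energy enstr Md hs br Frame cK sgz)
open Pool.Agent.Y6.F (DSol Mx κr Prt rk code cd ln NM al kx Xm Ym ML lvM σM αM GM bM dM vM Cnd ChnF
  Adq env eF rF mx D0 Ty tm xs ys Ms S_LV S_CODE S_SUMS S_VEC S_KERM S_DATM S_LAT S_ENV S_RATE S_ST
  S_IBP S_LIMR S_UC S_MS)

/-- odd functions of the mode which vanish at the special modes -/
def Odd0 (ω : Md → ℝ) : Prop := (∀ i, ω (br i) = -ω i) ∧ ∀ i, Sp i → ω i = 0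

/-- not parallel -/
def npar (k l : Z3) : Prop :=
  ¬ (k 0 * l 1 = k 1 * l 0 ∧ k 1 * l 2 = k 2 * l 1 ∧ k 2 * l 0 = k 0 * l 2)

/-- the detuning -/
def GapH (κ : ℝ) (ω : Md → ℝ) : Prop :=
  (∀ i, ¬ Sp i → κ * ln i ^ 16 ≤ |ω i|) ∧
  (∀ i a, ¬ Sp i → ¬ Sp a → npar a.1.1 i.1.1 → κ * max (ln a) (ln i) ^ 12 ≤ |ω a - ω i|) ∧
  ∀ i a b, ¬ Sp i → ¬ Sp a → ¬ Sp b → a.1.1 + b.1.1 = i.1.1 → npar a.1.1 b.1.1 →
    κ * mx i (a, b) ^ 12 ≤ |ω a + ω b - ω i|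

/-- the speeds, as a function of the code -/
noncomputable def SH (ω : Md → ℝ) (c : ℕ) : ℝ :=
  open Classical in
  if h : ∃ i : Md, cd i = c ∧ sgz i.1.1 = 1 then ω h.choose else 0

/-- the speeds of the modes -/
def S_SPH : Prop := S_LV → S_CODE → ∀ ω, Odd0 ω → ∀ i, SH ω (lvM i) * σM i = ω i

/-- the detuning of the speeds `S` -/
def GapS (S : ℕ → ℝ) : Prop := ∀ (i : Md) (p : Md × Md), σM i ≠ 0 → p.1.1.1 + p.2.1.1 = i.1.1 →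
  npar p.1.1.1 p.2.1.1 → 0 < D0 i p →
    D0 i p ≤ |S (lvM p.1) * σM p.1 + S (lvM p.2) * σM p.2 - S (lvM i) * σM i|

def S_GAPD : Prop := S_LV → S_CODE → S_SPH → ∀ ω, Odd0 ω → GapH (10 ^ 60) ω → GapS (SH ω)

/-- parallel frequencies do not interact -/
def S_NPAR : Prop := ∀ h, Frame h → ∀ i a b : Md, cK h i a b ≠ 0 → a.1.1 + b.1.1 = i.1.1 ∧
  npar a.1.1 b.1.1

/-- the bootstrap: the other modes are relatively small -/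
def S_BTCH : Prop := S_LV → S_CODE → S_ENV → S_RATE → S_NPAR → S_IBP → S_MS → S_SUMS → S_VEC →
  S_LAT → (∀ j ≤ 4, S_ST j) → S_KERM → S_DATM → ∀ S : ℕ → ℝ, GapS S → ∀ h, Frame h →
  ∀ (N : ℕ) (z : Md → ℝ → ℂ),
  TSol S lvM br σM (cK h) vM N z → ∀ θ ∈ Icc (0 : ℝ) 1, Cnd αM (xs z) (ys z) θ →
  ∀ i, σM i ≠ 0 → ∀ t ∈ Icc 0 θ, ‖z i t‖ ≤ (10 ^ 20)⁻¹ * (ln i ^ 7)⁻¹ * env (Ms z t) (ln i)

/-- Blow-up for the system of the modes. -/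
def S_BLOWH : Prop := ∀ S : ℕ → ℝ, GapS S → ∀ h, Frame h → ∃ (T : ℝ) (z : Md → ℝ → ℂ), 0 < T ∧
    T ≤ 1 ∧ KSol S lvM br σM (cK h) NM T z ∧ (∀ i, z i 0 = vM i) ∧
    (∀ (T' : ℝ) (z' : Md → ℝ → ℂ), 0 < T' → KSol S lvM br σM (cK h) NM T' z' →
      (∀ i, z' i 0 = vM i) → T' ≤ T ∧ ∀ i, ∀ t ∈ Ico 0 T', z' i t = z i t) ∧
    (∀ t ∈ Ico 0 T, Summable (fun a => ‖z a t‖ ^ 2) ∧
      ∑' a, ‖z a t‖ ^ 2 = ∑' a, ‖vM a‖ ^ 2) ∧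
    ∀ M : ℝ, ∃ t ∈ Ico 0 T, ∃ i, σM i = 0 ∧ M < αM (lvM i) * ‖z i t‖

/-! ### The symbols -/

/-- blow-up with a large detuning, from a fixed initial field -/
def S_MAINH1 : Prop := ∃ V₀ : Coef, IsField V₀ ∧ ∀ ω, Odd0 ω → GapH (10 ^ 60) ω →
  ∃ (T : ℝ) (V : ℝ → Coef), 0 < T ∧ V 0 = V₀ ∧ IsSol (mH ω) (nH ω) T V ∧
  (∀ (T' : ℝ) (W : ℝ → Coef), 0 < T' → IsSol (mH ω) (nH ω) T' W → W 0 = V 0 →
    T' ≤ T ∧ ∀ t ∈ Ico 0 T', W t = V t) ∧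
  (∀ t ∈ Ico 0 T, energy (V t) = energy (V 0)) ∧
  ∀ M : ℝ, ∃ t ∈ Ico 0 T, M < enstr (V t)

/-- the passage to fields -/
def S_PH3H : Prop := S_LV → S_SPH → S_CODE → S_DATM → S_GAPD → S_BLOWH → S_MAINH1

/-- scaling -/
def S_SCH : Prop := S_MAINH1 → ∀ ω, Odd0 ω → ∀ κ : ℝ, 0 < κ → GapH κ ω → Blow ω

/-! ### Random symbols -/

/-- small divisors for independent uniformly distributed coefficients -/
def S_AEX : Prop := ∀ (I ι : Type) [Countable I] (J : I → Finset ι) (c : I → ι → ℝ) (j₀ : I → ι)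
  (r δ : I → ℝ), (∀ τ, 0 ≤ δ τ) → (∀ τ, j₀ τ ∈ J τ ∧ c τ (j₀ τ) ≠ 0) →
  Summable (fun τ => δ τ / |c τ (j₀ τ)|) →
  ∀ᵐ X : ι → ℝ ∂(Measure.infinitePi fun _ : ι => unif), ∃ κ : ℝ, 0 < κ ∧
    ∀ τ, κ * δ τ ≤ |∑ j ∈ J τ, c τ j * X j + r τ|

/-- the random symbol: `ω₀` plus `δ |k|^20` times independent random variables -/
noncomputable def ωX (δ : ℝ) (ω₀ X : Md → ℝ) (i : Md) : ℝ :=
  open Classical in
  ω₀ i + if Sp i then 0 else δ * ((sgz i.1.1 : ℝ) * ln i ^ 20 * X (rp i))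

def S_ODDX : Prop := ∀ (δ : ℝ) (ω₀ X : Md → ℝ), Odd0 ω₀ → Odd0 (ωX δ ω₀ X)

/-- the detuning holds almost surely -/
def S_AEH : Prop := S_AEX → S_CODE → S_LAT → ∀ ω₀, Odd0 ω₀ → ∀ δ : ℝ, 0 < δ →
  ∀ᵐ X : Md → ℝ ∂(Measure.infinitePi fun _ : Md => unif), ∃ κ : ℝ, 0 < κ ∧ GapH κ (ωX δ ω₀ X)

/-- the number of special modes -/
def S_CNT : Prop := ∀ N : ℝ, 3 ≤ N → {i : Md | Sp i ∧ ln i ≤ N}.Finite ∧
  ({i : Md | Sp i ∧ ln i ≤ N}.ncard : ℝ) ≤ 4 * Real.log (Real.log N)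

/-- The main theorem. -/
def S_MAINH : Prop := ∀ ω₀ : Md → ℝ, Odd0 ω₀ → ∀ δ : ℝ, 0 < δ →
  ∀ᵐ X : Md → ℝ ∂(Measure.infinitePi fun _ : Md => unif), Blow (ωX δ ω₀ X)

end Pool.Agent.Y6.H
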